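import Mathlib
import Pool.Agent.Q72.Shell.Final

/-!
# Continuity of the Lempert function does not imply pseudoconvexity

The definitions are in `Pool.Agent.Q72.Shell.Defs` (`lempert`) and `Pool.Agent.Q72.QTI.Defs`
(`HasSmoothBoundary`, `IsPseudoconvex`).
-/

set_option autoImplicit false

open Metric Set Filter Topology

namespace Pool.Agent.Results.MP_5a1ff8_an.ShellCounterexample

open Q72.Shell

/-- In every dimension `n ≥ 2` there is a bounded domain `D` with `C^∞`-smooth boundary whose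
Lempert function is (finite and) continuous on `D × D` but which is not pseudoconvex. -/
theorem result :
    ∀ n : ℕ, 2 ≤ n → ∃ D : Set (EuclideanSpace ℂ (Fin n)),
      IsOpen D ∧ IsConnected D ∧ Bornology.IsBounded D ∧ Q72.QTI.HasSmoothBoundary D ∧
      (∀ z ∈ D, ∀ w ∈ D, ∃ (φ : ℂ → EuclideanSpace ℂ (Fin n)) (α : ℂ),
        DifferentiableOn ℂ φ (ball 0 1) ∧ MapsTo φ (ball 0 1) D ∧ ‖α‖ < 1 ∧ φ 0 = z ∧ φ α = w) ∧
      ContinuousOn (fun p : EuclideanSpace ℂ (Fin n) × EuclideanSpace ℂ (Fin n) =>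
        lempert D p.1 p.2) (D ×ˢ D) ∧
      ¬ Q72.QTI.IsPseudoconvex D := by
  intro n hn
  obtain ⟨n, rfl⟩ : ∃ m, n = m + 2 := ⟨n - 2, by omega⟩
  refine ⟨shell (X n), shell_open, shell_connected, shell_bounded, shell_smooth, ?_,
    lempert_continuous, shell_not_pseudoconvex⟩
  intro z hz w hw
  obtain ⟨_, φ, α, h1, h2, h3, h4, h5, _⟩ := through_exists hz hw
  exact ⟨φ, α, h1, h2, h3, h4, h5⟩

end Pool.Agent.Results.MP_5a1ff8_an.ShellCounterexample
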